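import Pool.Agent.LeoC.UpStmts

/-!
REA: inequalities at one place; two discs for the last coefficient.
-/

set_option autoImplicit false

open Pool.Agent.LeoK Pool.Agent.LeoG Pool.Agent.LeoC

namespace Pool.Agent.LeoC.H76

/-- The data of a decomposition into two cubes. -/
theorem key (h1 : TcuStmt) (h2 : TcbStmt) (v : Q4 ℂ) (hm : mm v ≠ 0) :
    ∃ P Q dl : ℝ, 0 ≤ P ∧ 0 ≤ Q ∧ 0 < dl ∧ ‖mm v‖ = 27 * dl ^ 6 ∧
      hc v 1 0 = (P ^ 2 + Q ^ 2) / (2 * dl) ∧ ‖v 0‖ ≤ P ^ 3 + Q ^ 3 ∧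
      P ^ 3 - Q ^ 3 ≤ ‖v 0‖ ∧ Q ^ 3 - P ^ 3 ≤ ‖v 0‖ ∧
      ‖v 1 ^ 2 - 3 * v 0 * v 2‖ = 9 * dl ^ 2 * (P * Q) := by
  obtain ⟨u, hu, rfl⟩ := h2.1 v hm
  obtain ⟨e1, -, e3⟩ := h1 u
  have e4 := e3 hu 1 0
  rw [mul_one, mul_zero, add_zero, mul_one, mul_zero, add_zero] at e4
  have hv0 : tc u 0 = u 0 ^ 3 + u 2 ^ 3 := rfl
  have hh : tc u 1 ^ 2 - 3 * tc u 0 * tc u 2 = -(9 * dc u ^ 2 * (u 0 * u 2)) := by
    change (3 * (u 0 ^ 2 * u 1 + u 2 ^ 2 * u 3)) ^ 2 - 3 * (u 0 ^ 3 + u 2 ^ 3) *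
      (3 * (u 0 * u 1 ^ 2 + u 2 * u 3 ^ 2)) = -(9 * (u 0 * u 3 - u 1 * u 2) ^ 2 * (u 0 * u 2))
    ring
  refine ⟨‖u 0‖, ‖u 2‖, ‖dc u‖, norm_nonneg _, norm_nonneg _, norm_pos_iff.mpr hu, ?_, e4, ?_, ?_,
    ?_, ?_⟩
  · rw [e1, norm_mul, norm_pow]; norm_num
  · rw [hv0, ← norm_pow, ← norm_pow]; exact norm_add_le _ _
  · rw [hv0, ← norm_pow, ← norm_pow]
    have := norm_sub_le (u 0 ^ 3 + u 2 ^ 3) (u 2 ^ 3)
    rw [add_sub_cancel_right] at this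
    linarith
  · rw [hv0, ← norm_pow, ← norm_pow]
    have := norm_sub_le (u 0 ^ 3 + u 2 ^ 3) (u 0 ^ 3)
    rw [add_sub_cancel_left] at this
    linarith
  · rw [hh, norm_neg, norm_mul, norm_mul, norm_mul, norm_pow]; norm_num

theorem rpow32 (x : ℝ) (hx : 0 ≤ x) : x ^ (3 / 2 : ℝ) = Real.sqrt x ^ 3 := by
  rw [Real.sqrt_eq_rpow, ← Real.rpow_natCast, ← Real.rpow_mul hx]
  norm_num

theorem rpow14 (x : ℝ) (hx : 0 ≤ x) : (x ^ (1 / 4 : ℝ)) ^ 4 = x := by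
  rw [← Real.rpow_natCast, ← Real.rpow_mul hx]
  norm_num

/-- The main real inequality. -/
theorem dich (κ μ τ e t P Q : ℝ) (hκ : 1 ≤ κ) (hμ : 0 < μ) (hτ : 0 < τ) (he : 0 < e)
    (ht : 0 ≤ t) (hP : 0 ≤ P) (hQ : 0 ≤ Q) (hPQ : P ^ 2 + Q ^ 2 = 2 * (t * e) ^ 2)
    (h1 : μ ^ 4 ≤ κ * (27 * e ^ 12)) (h2 : τ ^ 2 ≤ κ * t ^ 2) :
    (μ * τ ^ 3 ≤ 4 * κ ^ 4 * (P ^ 3 - Q ^ 3) ∨ μ * τ ^ 3 ≤ 4 * κ ^ 4 * (Q ^ 3 - P ^ 3)) ∨
      (μ ^ 3 * τ ^ 3) ^ 2 ≤ 4 * κ ^ 12 * (4 * (9 * e ^ 4 * (P * Q)) ^ 3) := by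
  have hκ0 : 0 < κ := by linarith
  have k1 : μ ≤ 3 * κ * e ^ 3 := by
    have : μ ^ 4 ≤ (3 * κ * e ^ 3) ^ 4 := by
      have e1 : (3 * κ * e ^ 3) ^ 4 = 81 * κ ^ 4 * e ^ 12 := by ring
      have e2 : κ ≤ κ ^ 4 := le_self_pow₀ hκ (by norm_num)
      have e3 : κ * (27 * e ^ 12) ≤ κ ^ 4 * (27 * e ^ 12) :=
        mul_le_mul_of_nonneg_right e2 (by positivity)
      have e4 : 0 ≤ κ ^ 4 * e ^ 12 := by positivity
      rw [e1]; linarith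
    exact le_of_pow_le_pow_left₀ (by norm_num) (by positivity) this
  have k2 : τ ≤ κ * t := by
    have : τ ^ 2 ≤ (κ * t) ^ 2 := by
      have e2 : κ ≤ κ ^ 2 := le_self_pow₀ hκ (by norm_num)
      have e3 : κ * t ^ 2 ≤ κ ^ 2 * t ^ 2 := mul_le_mul_of_nonneg_right e2 (by positivity)
      rw [mul_pow]; linarith
    exact le_of_pow_le_pow_left₀ (by norm_num) (by positivity) this
  obtain ⟨s, hs⟩ : ∃ s : ℝ, s = t * e := ⟨_, rfl⟩
  rw [← hs] at hPQ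
  have hs0 : 0 ≤ s := by rw [hs]; positivity
  have kS : μ * τ ^ 3 ≤ 3 * κ ^ 4 * s ^ 3 := by
    have e1 : τ ^ 3 ≤ (κ * t) ^ 3 := pow_le_pow_left₀ hτ.le k2 3
    calc μ * τ ^ 3 ≤ (3 * κ * e ^ 3) * (κ * t) ^ 3 := mul_le_mul k1 e1 (by positivity) (by positivity)
      _ = 3 * κ ^ 4 * s ^ 3 := by rw [hs]; ring
  -- the case where one of the two vectors is small
  have small : ∀ P Q : ℝ, 0 ≤ P → 0 ≤ Q → P ^ 2 + Q ^ 2 = 2 * s ^ 2 → Q ≤ P / 2 →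
      μ * τ ^ 3 ≤ 4 * κ ^ 4 * (P ^ 3 - Q ^ 3) := by
    intro P Q hP hQ hPQ hq
    have a1 : s ≤ P := by
      have : Q ^ 2 ≤ P ^ 2 := pow_le_pow_left₀ hQ (by linarith) 2
      have : s ^ 2 ≤ P ^ 2 := by linarith
      exact le_of_pow_le_pow_left₀ (by norm_num) hP this
    have a2 : s ^ 3 ≤ P ^ 3 := pow_le_pow_left₀ hs0 a1 3
    have a3 : Q ^ 3 ≤ P ^ 3 / 8 := by
      have := pow_le_pow_left₀ hQ hq 3
      have e : (P / 2) ^ 3 = P ^ 3 / 8 := by ring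
      linarith
    have a4 : 3 * s ^ 3 ≤ 4 * (P ^ 3 - Q ^ 3) := by
      have : 0 ≤ P ^ 3 := by positivity
      linarith
    have a5 : κ ^ 4 * (3 * s ^ 3) ≤ κ ^ 4 * (4 * (P ^ 3 - Q ^ 3)) :=
      mul_le_mul_of_nonneg_left a4 (by positivity)
    linarith
  -- the case where both vectors are large
  have large : ∀ P Q : ℝ, 0 ≤ P → 0 ≤ Q → P ^ 2 + Q ^ 2 = 2 * s ^ 2 → Q ≤ P → P / 2 ≤ Q →
      (μ ^ 3 * τ ^ 3) ^ 2 ≤ 4 * κ ^ 12 * (4 * (9 * e ^ 4 * (P * Q)) ^ 3) := by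
    intro P Q hP hQ hPQ hq hq2
    have a1 : s ^ 2 ≤ P ^ 2 := by
      have : Q ^ 2 ≤ P ^ 2 := pow_le_pow_left₀ hQ hq 2
      linarith
    have a2 : s ^ 2 / 2 ≤ P * Q := by
      have : P * (P / 2) ≤ P * Q := mul_le_mul_of_nonneg_left hq2 hP
      have e : P * (P / 2) = P ^ 2 / 2 := by ring
      linarith
    have a3 : (9 / 2 * (e ^ 4 * s ^ 2)) ^ 3 ≤ (9 * e ^ 4 * (P * Q)) ^ 3 := by
      apply pow_le_pow_left₀ (by positivity)
      have : 9 * e ^ 4 * (s ^ 2 / 2) ≤ 9 * e ^ 4 * (P * Q) :=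
        mul_le_mul_of_nonneg_left a2 (by positivity)
      have e : 9 * e ^ 4 * (s ^ 2 / 2) = 9 / 2 * (e ^ 4 * s ^ 2) := by ring
      linarith
    have a4 : μ ^ 3 * τ ^ 3 ≤ (3 * κ * e ^ 3) ^ 2 * (3 * κ ^ 4 * s ^ 3) := by
      have e1 : μ ^ 3 * τ ^ 3 = μ ^ 2 * (μ * τ ^ 3) := by ring
      rw [e1]
      exact mul_le_mul (pow_le_pow_left₀ hμ.le k1 2) kS (by positivity) (by positivity)
    have a5 : (μ ^ 3 * τ ^ 3) ^ 2 ≤ ((3 * κ * e ^ 3) ^ 2 * (3 * κ ^ 4 * s ^ 3)) ^ 2 :=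
      pow_le_pow_left₀ (by positivity) a4 2
    have a6 : ((3 * κ * e ^ 3) ^ 2 * (3 * κ ^ 4 * s ^ 3)) ^ 2 = 729 * κ ^ 12 * (e ^ 12 * s ^ 6) := by
      ring
    have a7 : (9 / 2 * (e ^ 4 * s ^ 2)) ^ 3 = 729 / 8 * (e ^ 12 * s ^ 6) := by ring
    rw [a7] at a3
    rw [a6] at a5
    have a8 : κ ^ 12 * (729 / 8 * (e ^ 12 * s ^ 6)) ≤ κ ^ 12 * (9 * e ^ 4 * (P * Q)) ^ 3 :=
      mul_le_mul_of_nonneg_left a3 (by positivity)
    have a9 : 0 ≤ κ ^ 12 * (e ^ 12 * s ^ 6) := by positivity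
    linarith
  rcases le_total Q P with h | h
  · rcases le_total Q (P / 2) with h' | h'
    · exact Or.inl (Or.inl (small P Q hP hQ hPQ h'))
    · exact Or.inr (large P Q hP hQ hPQ h h')
  · have hPQ' : Q ^ 2 + P ^ 2 = 2 * s ^ 2 := by linarith
    rcases le_total P (Q / 2) with h' | h'
    · exact Or.inl (Or.inr (small Q P hQ hP hPQ' h'))
    · have := large Q P hQ hP hPQ' h h'
      rw [mul_comm Q P] at this
      exact Or.inr this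

theorem rea (h1 : TcuStmt) (h2 : TcbStmt) : ReaStmt := by
  constructor
  · intro v hm
    obtain ⟨P, Q, dl, hP, hQ, hdl, em, ex, ea, -, -, eh⟩ := key h1 h2 v hm
    have hx : 0 ≤ hc v 1 0 := by rw [ex]; positivity
    obtain ⟨x, hxe⟩ : ∃ x : ℝ, x = hc v 1 0 := ⟨_, rfl⟩
    rw [← hxe] at hx ex ⊢
    have h2x : P ^ 2 + Q ^ 2 = 2 * dl * x := by
      rw [ex]; field_simp
    refine ⟨hx, ?_, ?_, ?_⟩
    · intro h0
      rcases hx.lt_or_eq with h | h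
      · exact h
      exfalso
      rw [← h, mul_zero] at h2x
      have hP0 : P = 0 := by
        have : P ^ 2 = 0 := by nlinarith [sq_nonneg P, sq_nonneg Q]
        exact pow_eq_zero_iff (by norm_num) |>.mp this
      have hQ0 : Q = 0 := by
        have : Q ^ 2 = 0 := by nlinarith [sq_nonneg P, sq_nonneg Q]
        exact pow_eq_zero_iff (by norm_num) |>.mp this
      rw [hP0, hQ0] at ea
      norm_num at ea
      exact h0 ea
    · rw [rpow32 x hx]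
      obtain ⟨t, ht⟩ : ∃ t : ℝ, t = Real.sqrt x := ⟨_, rfl⟩
      obtain ⟨e, he⟩ : ∃ e : ℝ, e = Real.sqrt dl := ⟨_, rfl⟩
      obtain ⟨μ, hμ⟩ : ∃ μ : ℝ, μ = ‖mm v‖ ^ (1 / 4 : ℝ) := ⟨_, rfl⟩
      rw [← ht, ← hμ]
      have t0 : 0 ≤ t := by rw [ht]; exact Real.sqrt_nonneg _
      have e0 : 0 ≤ e := by rw [he]; exact Real.sqrt_nonneg _
      have t2 : t ^ 2 = x := by rw [ht]; exact Real.sq_sqrt hx
      have e2 : e ^ 2 = dl := by rw [he]; exact Real.sq_sqrt hdl.le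
      have μ0 : 0 ≤ μ := by rw [hμ]; positivity
      have μ4 : μ ^ 4 = 27 * e ^ 12 := by
        rw [hμ, rpow14 _ (norm_nonneg _), em, ← e2]; ring
      have μe : 2 * e ^ 3 ≤ μ := by
        have : (2 * e ^ 3) ^ 4 ≤ μ ^ 4 := by
          have e1 : (2 * e ^ 3) ^ 4 = 16 * e ^ 12 := by ring
          have e3 : 0 ≤ e ^ 12 := by positivity
          rw [e1, μ4]; linarith
        exact le_of_pow_le_pow_left₀ (by norm_num) μ0 this
      obtain ⟨s, hs⟩ : ∃ s : ℝ, s = t * e := ⟨_, rfl⟩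
      have s0 : 0 ≤ s := by rw [hs]; positivity
      have hPQ : P ^ 2 + Q ^ 2 = 2 * s ^ 2 := by
        rw [h2x, hs, ← t2, ← e2]; ring
      have p2 : P ≤ 2 * s := by
        have : P ^ 2 ≤ (2 * s) ^ 2 := by nlinarith [sq_nonneg Q, sq_nonneg s]
        exact le_of_pow_le_pow_left₀ (by norm_num) (by positivity) this
      have q2 : Q ≤ 2 * s := by
        have : Q ^ 2 ≤ (2 * s) ^ 2 := by nlinarith [sq_nonneg P, sq_nonneg s]
        exact le_of_pow_le_pow_left₀ (by norm_num) (by positivity) this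
      have f1 : P ^ 3 ≤ 2 * s * P ^ 2 := by
        have := mul_le_mul_of_nonneg_right p2 (sq_nonneg P)
        have e : P * P ^ 2 = P ^ 3 := by ring
        linarith
      have f2 : Q ^ 3 ≤ 2 * s * Q ^ 2 := by
        have := mul_le_mul_of_nonneg_right q2 (sq_nonneg Q)
        have e : Q * Q ^ 2 = Q ^ 3 := by ring
        linarith
      have f3 : 2 * s * P ^ 2 + 2 * s * Q ^ 2 = 4 * s ^ 3 := by
        have : 2 * s * P ^ 2 + 2 * s * Q ^ 2 = 2 * s * (P ^ 2 + Q ^ 2) := by ring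
        rw [this, hPQ]; ring
      have f4 : t ^ 3 * (2 * e ^ 3) ≤ t ^ 3 * μ := mul_le_mul_of_nonneg_left μe (by positivity)
      have f5 : t ^ 3 * (2 * e ^ 3) = 2 * s ^ 3 := by rw [hs]; ring
      linarith
    · rw [eh]
      have hs : Real.sqrt ‖mm v‖ = Real.sqrt 27 * dl ^ 3 := by
        rw [em, Real.sqrt_mul (by norm_num)]
        congr 1
        have : dl ^ 6 = (dl ^ 3) ^ 2 := by ring
        rw [this, Real.sqrt_sq (by positivity)]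
      rw [hs]
      have h5 : (5 : ℝ) ≤ Real.sqrt 27 := by
        apply Real.le_sqrt_of_sq_le; norm_num
      have g1 : 2 * (P * Q) ≤ 2 * dl * x := by
        rw [← h2x]; nlinarith [sq_nonneg (P - Q)]
      have g2 : dl ^ 2 * (2 * (P * Q)) ≤ dl ^ 2 * (2 * dl * x) :=
        mul_le_mul_of_nonneg_left g1 (by positivity)
      have g3 : x * (5 * dl ^ 3) ≤ x * (Real.sqrt 27 * dl ^ 3) :=
        mul_le_mul_of_nonneg_left (mul_le_mul_of_nonneg_right h5 (by positivity)) hx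
      have g4 : 0 ≤ x * dl ^ 3 := by positivity
      nlinarith
  · intro κ hκ
    have hκ0 : 0 < κ := by linarith
    refine ⟨2 * κ ^ 7, by positivity, ?_⟩
    intro a b c M ξ ha hM hξ
    obtain ⟨z, hz⟩ : ∃ z : ℂ, z ^ 2 = 4 * (b ^ 2 - 3 * a * c) ^ 3 :=
      IsAlgClosed.exists_pow_nat_eq _ (by norm_num)
    refine ⟨![(z - (2 * b ^ 3 - 9 * a * b * c)) / (27 * a ^ 2),
      (-z - (2 * b ^ 3 - 9 * a * b * c)) / (27 * a ^ 2)], ?_⟩
    intro d hd1 hd2 hd3 hd4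
    obtain ⟨v, hv⟩ : ∃ v : Q4 ℂ, v = ![a, b, c, d] := ⟨_, rfl⟩
    rw [← hv] at hd1 hd2 hd3 hd4
    have v0 : v 0 = a := by rw [hv]; rfl
    have v1 : v 1 = b := by rw [hv]; rfl
    have v2 : v 2 = c := by rw [hv]; rfl
    have v3 : v 3 = d := by rw [hv]; rfl
    have hm : mm v ≠ 0 := by
      intro h
      rw [h, norm_zero, mul_zero] at hd1
      linarith
    obtain ⟨P, Q, dl, hP, hQ, hdl, em, ex, -, ea1, ea2, eh⟩ := key h1 h2 v hm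
    rw [v0] at ea1 ea2
    rw [v0, v1, v2] at eh
    have hx : 0 ≤ hc v 1 0 := by rw [ex]; positivity
    obtain ⟨x, hxe⟩ : ∃ x : ℝ, x = hc v 1 0 := ⟨_, rfl⟩
    rw [← hxe] at hx ex hd3 hd4
    have h2x : P ^ 2 + Q ^ 2 = 2 * dl * x := by
      rw [ex]; field_simp
    rw [rpow32 ξ hξ.le]
    obtain ⟨t, ht⟩ : ∃ t : ℝ, t = Real.sqrt x := ⟨_, rfl⟩
    obtain ⟨e, he⟩ : ∃ e : ℝ, e = Real.sqrt dl := ⟨_, rfl⟩
    obtain ⟨μ, hμ⟩ : ∃ μ : ℝ, μ = M ^ (1 / 4 : ℝ) := ⟨_, rfl⟩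
    obtain ⟨τ, hτ⟩ : ∃ τ : ℝ, τ = Real.sqrt ξ := ⟨_, rfl⟩
    rw [← hμ, ← hτ]
    have t0 : 0 ≤ t := by rw [ht]; exact Real.sqrt_nonneg _
    have e0 : 0 < e := by rw [he]; exact Real.sqrt_pos.mpr hdl
    have τ0 : 0 < τ := by rw [hτ]; exact Real.sqrt_pos.mpr hξ
    have t2 : t ^ 2 = x := by rw [ht]; exact Real.sq_sqrt hx
    have e2 : e ^ 2 = dl := by rw [he]; exact Real.sq_sqrt hdl.le
    have τ2 : τ ^ 2 = ξ := by rw [hτ]; exact Real.sq_sqrt hξ.le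
    have μ0 : 0 < μ := by rw [hμ]; positivity
    have μ4 : μ ^ 4 = M := by rw [hμ, rpow14 _ hM.le]
    have hPQ : P ^ 2 + Q ^ 2 = 2 * (t * e) ^ 2 := by
      rw [h2x, ← t2, ← e2]; ring
    have k1 : μ ^ 4 ≤ κ * (27 * e ^ 12) := by
      rw [μ4]
      have : e ^ 12 = dl ^ 6 := by rw [← e2]; ring
      rw [this, ← em]; exact hd1
    have k2 : τ ^ 2 ≤ κ * t ^ 2 := by rw [τ2, t2]; exact hd3
    have D := dich κ μ τ e t P Q hκ μ0 τ0 e0 t0 hP hQ hPQ k1 k2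
    -- the value of the covariant
    obtain ⟨G, hG⟩ : ∃ G : ℂ, G = 27 * a ^ 2 * d + (2 * b ^ 3 - 9 * a * b * c) := ⟨_, rfl⟩
    have hGz : (G - z) * (G + z) = 27 * a ^ 2 * mm v := by
      have : (G - z) * (G + z) = G ^ 2 - z ^ 2 := by ring
      rw [this, hz, hG, mm, dsc, v0, v1, v2, v3]
      ring
    have hN : ‖G - z‖ * ‖G + z‖ ≤ 27 * ‖a‖ ^ 2 * (κ * μ ^ 4) := by
      rw [← norm_mul, hGz, norm_mul, norm_mul, norm_pow]
      have : ‖(27 : ℂ)‖ = 27 := by norm_num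
      rw [this, μ4]
      exact mul_le_mul_of_nonneg_left hd2 (by positivity)
    have ha0 : 0 < ‖a‖ := norm_pos_iff.mpr ha
    have h27 : (27 * a ^ 2 : ℂ) ≠ 0 := mul_ne_zero (by norm_num) (pow_ne_zero _ ha)
    have n27 : ‖(27 * a ^ 2 : ℂ)‖ = 27 * ‖a‖ ^ 2 := by
      rw [norm_mul, norm_pow]; norm_num
    have d0 : d - (z - (2 * b ^ 3 - 9 * a * b * c)) / (27 * a ^ 2) = (G - z) / (27 * a ^ 2) := by
      rw [hG]; field_simp; ring
    have d1 : d - (-z - (2 * b ^ 3 - 9 * a * b * c)) / (27 * a ^ 2) = (G + z) / (27 * a ^ 2) := by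
      rw [hG]; field_simp; ring
    -- reduction to the minimum
    have fin : ∀ B : ℝ, min ‖G - z‖ ‖G + z‖ ≤ 27 * ‖a‖ ^ 2 * B → B ≤ 2 * κ ^ 7 * (μ / τ ^ 3) →
        ∃ i, ‖d - ![(z - (2 * b ^ 3 - 9 * a * b * c)) / (27 * a ^ 2),
          (-z - (2 * b ^ 3 - 9 * a * b * c)) / (27 * a ^ 2)] i‖ ≤ 2 * κ ^ 7 * (μ / τ ^ 3) := by
      intro B hB hB2
      rcases min_le_iff.mp hB with h | h
      · refine ⟨0, le_trans ?_ hB2⟩
        change ‖d - (z - (2 * b ^ 3 - 9 * a * b * c)) / (27 * a ^ 2)‖ ≤ B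
        rw [d0, norm_div, n27, div_le_iff₀ (by positivity)]
        linarith
      · refine ⟨1, le_trans ?_ hB2⟩
        change ‖d - (-z - (2 * b ^ 3 - 9 * a * b * c)) / (27 * a ^ 2)‖ ≤ B
        rw [d1, norm_div, n27, div_le_iff₀ (by positivity)]
        linarith
    obtain ⟨r1, hr1⟩ : ∃ r1 : ℝ, r1 = ‖G - z‖ := ⟨_, rfl⟩
    obtain ⟨r2, hr2⟩ : ∃ r2 : ℝ, r2 = ‖G + z‖ := ⟨_, rfl⟩
    have r10 : 0 ≤ r1 := by rw [hr1]; exact norm_nonneg _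
    have r20 : 0 ≤ r2 := by rw [hr2]; exact norm_nonneg _
    rw [← hr1, ← hr2] at hN fin
    have hmm : min r1 r2 * min r1 r2 ≤ r1 * r2 :=
      mul_le_mul (min_le_left _ _) (min_le_right _ _) (le_min r10 r20) r10
    have hmx : min r1 r2 * max r1 r2 = r1 * r2 := min_mul_max r1 r2
    have hm0 : 0 ≤ min r1 r2 := le_min r10 r20
    have caseA : μ * τ ^ 3 ≤ 4 * κ ^ 4 * ‖a‖ →
        ∃ i, ‖d - ![(z - (2 * b ^ 3 - 9 * a * b * c)) / (27 * a ^ 2),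
          (-z - (2 * b ^ 3 - 9 * a * b * c)) / (27 * a ^ 2)] i‖ ≤ 2 * κ ^ 7 * (μ / τ ^ 3) := by
      intro hA
      have m1 : min r1 r2 ≤ 6 * κ * ‖a‖ * μ ^ 2 := by
        have : min r1 r2 ^ 2 ≤ (6 * κ * ‖a‖ * μ ^ 2) ^ 2 := by
          have e1 : (6 * κ * ‖a‖ * μ ^ 2) ^ 2 = 36 * κ ^ 2 * (‖a‖ ^ 2 * μ ^ 4) := by ring
          have e2 : κ ≤ κ ^ 2 := le_self_pow₀ hκ (by norm_num)
          have e3 : κ * (‖a‖ ^ 2 * μ ^ 4) ≤ κ ^ 2 * (‖a‖ ^ 2 * μ ^ 4) :=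
            mul_le_mul_of_nonneg_right e2 (by positivity)
          have e4 : 0 ≤ κ ^ 2 * (‖a‖ ^ 2 * μ ^ 4) := by positivity
          rw [e1, pow_two (min r1 r2)]
          linarith
        exact le_of_pow_le_pow_left₀ (by norm_num) (by positivity) this
      apply fin (6 * κ * μ ^ 2 / (27 * ‖a‖))
      · have e1 : 27 * ‖a‖ ^ 2 * (6 * κ * μ ^ 2 / (27 * ‖a‖)) = 6 * κ * ‖a‖ * μ ^ 2 := by
          field_simp
        rw [e1]; exact m1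
      · rw [mul_div_assoc', div_le_div_iff₀ (by positivity) (by positivity)]
        have f1 : 6 * κ * μ * (μ * τ ^ 3) ≤ 6 * κ * μ * (4 * κ ^ 4 * ‖a‖) :=
          mul_le_mul_of_nonneg_left hA (by positivity)
        have f2 : κ ^ 5 ≤ κ ^ 7 := pow_le_pow_right₀ hκ (by norm_num)
        have f3 : κ ^ 5 * (μ * ‖a‖) ≤ κ ^ 7 * (μ * ‖a‖) :=
          mul_le_mul_of_nonneg_right f2 (by positivity)
        have f4 : 0 ≤ κ ^ 7 * (μ * ‖a‖) := by positivity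
        nlinarith
    rcases D with (D | D) | D
    · apply caseA
      refine D.trans ?_
      exact mul_le_mul_of_nonneg_left ea1 (by positivity)
    · apply caseA
      refine D.trans ?_
      exact mul_le_mul_of_nonneg_left ea2 (by positivity)
    · -- case B
      have hz2 : ‖z‖ ^ 2 = 4 * (9 * e ^ 4 * (P * Q)) ^ 3 := by
        rw [← norm_pow, hz, norm_mul, norm_pow, eh, ← e2]
        have : ‖(4 : ℂ)‖ = 4 := by norm_num
        rw [this]; ring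
      rw [← hz2] at D
      have hzl : μ ^ 3 * τ ^ 3 ≤ 2 * κ ^ 6 * ‖z‖ := by
        have e1 : 4 * κ ^ 12 * ‖z‖ ^ 2 = (2 * κ ^ 6 * ‖z‖) ^ 2 := by ring
        rw [e1] at D
        exact le_of_pow_le_pow_left₀ (by norm_num) (by positivity) D
      have hz0 : 0 < ‖z‖ := by
        have : 0 < μ ^ 3 * τ ^ 3 := by positivity
        by_contra hcon
        have : ‖z‖ = 0 := le_antisymm (not_lt.mp hcon) (norm_nonneg _)
        rw [this, mul_zero] at hzl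
        linarith
      have hmaxz : ‖z‖ ≤ max r1 r2 := by
        have t1 : ‖z + z‖ ≤ r2 + r1 := by
          have : z + z = (G + z) - (G - z) := by ring
          rw [this, hr1, hr2]; exact norm_sub_le _ _
        have t2 : ‖z + z‖ = 2 * ‖z‖ := by
          rw [← two_mul, norm_mul]; norm_num
        have t3 := le_max_left r1 r2
        have t4 := le_max_right r1 r2
        linarith
      apply fin (κ * μ ^ 4 / ‖z‖)
      · rw [mul_div_assoc', le_div_iff₀ hz0]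
        calc min r1 r2 * ‖z‖ ≤ min r1 r2 * max r1 r2 := mul_le_mul_of_nonneg_left hmaxz hm0
          _ = r1 * r2 := hmx
          _ ≤ _ := hN
      · rw [mul_div_assoc', div_le_div_iff₀ hz0 (by positivity)]
        have f1 : κ * μ * (μ ^ 3 * τ ^ 3) ≤ κ * μ * (2 * κ ^ 6 * ‖z‖) :=
          mul_le_mul_of_nonneg_left hzl (by positivity)
        calc κ * μ ^ 4 * τ ^ 3 = κ * μ * (μ ^ 3 * τ ^ 3) := by ring
          _ ≤ κ * μ * (2 * κ ^ 6 * ‖z‖) := f1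
          _ = 2 * κ ^ 7 * μ * ‖z‖ := by ring

end Pool.Agent.LeoC.H76
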